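import Pool.Agent.Helper13.ZL.Top
import Pool.Agent.Helper14.BSC.All
import Pool.Agent.Helper26.ZL.DIVC
import Pool.Agent.Helper35.ZL.SPL
import Pool.Agent.Helper53.ZL.VEMB
import Pool.Agent.Helper55.ZL.ZERO
import Pool.Agent.Helper68.ZL.VALU
import Pool.Agent.Helper7.ZL.DLIB
import Pool.Agent.Helper71.ZL.ZLD
import Pool.Agent.Helper74.ZL.MON
import Pool.Agent.Helper74.ZL.SIE
import Pool.Agent.Helper8.ZL.COI
import Pool.Agent.Helper8.ZL.COP
import Pool.Agent.Helper91.ZL.DEG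
import Pool.Agent.Helper94.ZL.PZ

/-!
# Assembly of the modules of the zero-one law (MP_8312c9_nt)
-/

set_option autoImplicit false

namespace Pool.Agent.Helper13.ZL

open Pool.Agent.Helper14.BSC

theorem all_PZ : Pool.Agent.Helper13.ZL.ST_PZ := st_PZ
theorem all_DLIB : Pool.Agent.Helper13.ZL.ST_DLIB := st_DLIB all_PZ
theorem all_SPL : Pool.Agent.Helper13.ZL.ST_SPL := st_SPL all_PZ
theorem all_DEG : Pool.Agent.Helper13.ZL.ST_DEG := st_DEG
theorem all_MON : Pool.Agent.Helper13.ZL.ST_MON := st_MON all_SPL all_DEG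
theorem all_SIE : Pool.Agent.Helper13.ZL.ST_SIE := st_SIE all_MON
theorem all_DEN : Pool.Agent.Helper13.ZL.ST_DEN := st_DEN all_PZ all_SIE
theorem all_VEMB : Pool.Agent.Helper13.ZL.ST_VEMB := st_VEMB all_EMB
theorem all_VALU : Pool.Agent.Helper13.ZL.ST_VALU := st_VALU all_KUM all_ROOT all_BOT all_EFIN
theorem all_COP : Pool.Agent.Helper13.ZL.ST_COP := st_COP all_KUM all_BOT all_EFIN all_VALU
theorem all_COI : Pool.Agent.Helper13.ZL.ST_COI := st_COI all_EFIN
theorem all_ZERO : Pool.Agent.Helper13.ZL.ST_ZERO :=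
  st_ZERO all_DLIB all_DEN all_KUM all_ROOT all_BOT all_VALU all_COP
theorem all_DIVC : Pool.Agent.Helper13.ZL.ST_DIVC :=
  st_DIVC all_KUM all_BOT all_VALU all_ADL all_VEMB all_RK
theorem all_ZLD : Pool.Agent.Helper13.ZL.ST_ZLD :=
  st_ZLD all_DLIB all_VEMB all_RK all_COI all_ZERO all_DIVC all_ONE all_IFD all_ALG all_HEN

end Pool.Agent.Helper13.ZL
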