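import Pool.Agent.Helper14.BSC.Stmts2

/-!
# A zero-one law for birational sections over number fields: exact statements of the modules
Proofs: /team-store/zl_blueprint.md
-/

set_option autoImplicit false

open scoped Classical

namespace Pool.Agent.Helper13.ZL

open Pool.Agent.Helper14.BSC

/-- the finite places of `k` -/
abbrev Pl (k : Type) [Field k] [NumberField k] : Type :=
  IsDedekindDomain.HeightOneSpectrum (NumberField.RingOfIntegers k)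

/-- the number of elements of the residue field -/
noncomputable def q {k : Type} [Field k] [NumberField k] (v : Pl k) : ℕ := Ideal.absNorm v.asIdeal

/-- `b ≡ 1 mod v` -/
def Near {k : Type} [Field k] [NumberField k] (v : Pl k) (b : k) : Prop := v.valuation k (b - 1) < 1

/-! ## A. Densities -/

/-- `φ` has mean value `m` (Dirichlet density), with a bounded error -/
def HasMean {k : Type} [Field k] [NumberField k] (φ : Pl k → ℝ) (m : ℝ) : Prop :=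
  ∃ C : ℝ, ∀ s : ℝ, 1 < s → s ≤ 2 →
    Summable (fun v : Pl k => φ v * (q v : ℝ) ^ (-s)) ∧
    |(∑' v : Pl k, φ v * (q v : ℝ) ^ (-s)) - m * Real.log (1 / (s - 1))| ≤ C

/-- PZ: the prime zeta function of a number field. -/
def ST_PZ : Prop := ∀ (k : Type) [Field k] [NumberField k], HasMean (fun _ : Pl k => (1 : ℝ)) 1

/-- DLIB: sets of density `0`. -/
def ST_DLIB : Prop :=
  ∀ (k : Type) [Field k] [NumberField k],
    (∀ S T : Set (Pl k), T ⊆ S → NumberField.Set.HasDirichletDensity S 0 →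
      NumberField.Set.HasDirichletDensity T 0) ∧
    (∀ S T : Set (Pl k), NumberField.Set.HasDirichletDensity S 0 →
      NumberField.Set.HasDirichletDensity T 0 → NumberField.Set.HasDirichletDensity (S ∪ T) 0) ∧
    (∀ S : Set (Pl k), S.Finite → NumberField.Set.HasDirichletDensity S 0) ∧
    ¬ NumberField.Set.HasDirichletDensity (Set.univ : Set (Pl k)) 0

/-- SPL: the density of the completely split primes of a Galois extension. -/
def ST_SPL : Prop :=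
  ∀ (k F : Type) [Field k] [NumberField k] [Field F] [NumberField F] [Algebra k F] [IsGalois k F]
    (V B : Set (Pl k)), B.Finite →
    (∀ v ∈ V, v ∉ B → ∀ P : Pl F, (∀ x : NumberField.RingOfIntegers k,
        algebraMap (NumberField.RingOfIntegers k) (NumberField.RingOfIntegers F) x ∈ P.asIdeal ↔
          x ∈ v.asIdeal) →
      ∀ τ : F ≃ₐ[k] F, (∀ x : F, P.valuation F x ≤ 1 → P.valuation F (τ x) ≤ 1) → τ = 1) →
    (∀ v : Pl k, v ∉ B → ∀ P : Pl F, (∀ x : NumberField.RingOfIntegers k,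
        algebraMap (NumberField.RingOfIntegers k) (NumberField.RingOfIntegers F) x ∈ P.asIdeal ↔
          x ∈ v.asIdeal) → q P = q v → v ∈ V) →
    HasMean (fun v : Pl k => if v ∈ V then (1 : ℝ) else 0) (1 / (Module.finrank k F : ℝ))

/-- the prime `ℓ` divides the order of the multiplicative group of the residue field -/
noncomputable def al {k : Type} [Field k] [NumberField k] (ℓ : ℕ) (v : Pl k) : ℝ :=
  if ℓ ∣ q v - 1 then 1 else 0

/-- ... and `a ℓ` is an `ℓ`-th power modulo `v` -/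
noncomputable def be {k : Type} [Field k] [NumberField k] (a : ℕ → k) (ℓ : ℕ) (v : Pl k) : ℝ :=
  if ℓ ∣ q v - 1 ∧ ∃ t : k, Near v (a ℓ * t ^ ℓ) then 1 else 0

/-- good sets of primes -/
def GoodL {k : Type} [Field k] [NumberField k] (a : ℕ → k) (Λ : Finset ℕ) : Prop :=
  ∀ ℓ ∈ Λ, ℓ.Prime ∧ 2 < ℓ ∧ IsCoprime (ℓ : ℤ) (NumberField.discr k) ∧ ∀ b : k, b ^ ℓ ≠ a ℓ

/-- DEG: degrees of Kummer extensions. -/
def ST_DEG : Prop :=
  ∀ (k : Type) [Field k] [NumberField k] (a : ℕ → k) (Λ : Finset ℕ), GoodL a Λ →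
    ∀ D₁ D₂ : Finset ℕ, D₁ ⊆ Λ → D₂ ⊆ Λ → Disjoint D₁ D₂ →
      ∃ (F : Type) (_ : Field F) (_ : NumberField F) (_ : Algebra k F) (_ : IsGalois k F)
        (ζ θ : ℕ → F),
        Module.finrank k F = (∏ ℓ ∈ D₁, (ℓ - 1)) * ∏ ℓ ∈ D₂, (ℓ * (ℓ - 1)) ∧
        (∀ ℓ ∈ D₁ ∪ D₂, IsPrimitiveRoot (ζ ℓ) ℓ) ∧
        (∀ ℓ ∈ D₂, θ ℓ ^ ℓ = algebraMap k F (a ℓ)) ∧
        (∀ τ : F ≃ₐ[k] F, (∀ ℓ ∈ D₁ ∪ D₂, τ (ζ ℓ) = ζ ℓ) → (∀ ℓ ∈ D₂, τ (θ ℓ) = θ ℓ) → τ = 1)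

/-- MON: means of monomials. -/
def ST_MON : Prop :=
  ∀ (k : Type) [Field k] [NumberField k] (a : ℕ → k) (Λ : Finset ℕ), GoodL a Λ →
    ∀ D₁ D₂ : Finset ℕ, D₁ ⊆ Λ → D₂ ⊆ Λ → Disjoint D₁ D₂ →
      HasMean (fun v : Pl k => (∏ ℓ ∈ D₁, al ℓ v) * ∏ ℓ ∈ D₂, be a ℓ v)
        ((∏ ℓ ∈ D₁, 1 / ((ℓ : ℝ) - 1)) * ∏ ℓ ∈ D₂, 1 / ((ℓ : ℝ) * ((ℓ : ℝ) - 1)))

/-- SIE: the sieve. -/
def ST_SIE : Prop :=
  ∀ (k : Type) [Field k] [NumberField k] (a : ℕ → k) (Λ : Finset ℕ), GoodL a Λ →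
    HasMean (fun v : Pl k => ∏ ℓ ∈ Λ, (1 - al ℓ v + be a ℓ v)) (∏ ℓ ∈ Λ, (1 - 1 / (ℓ : ℝ)))

/-- DEN: a set of places at which many classes are locally powers has density `0`. -/
def ST_DEN : Prop :=
  ∀ (k : Type) [Field k] [NumberField k] (S : Set (Pl k)) (a : ℕ → k) (Ls : Set ℕ),
    (∀ ℓ ∈ Ls, ℓ.Prime ∧ ∀ b : k, b ^ ℓ ≠ a ℓ) → ¬ Summable (fun ℓ : Ls => 1 / ((ℓ : ℕ) : ℝ)) →
    (∀ v ∈ S, ∀ ℓ ∈ Ls, ∃ t : k, Near v (a ℓ * t ^ ℓ)) → NumberField.Set.HasDirichletDensity S 0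

/-! ## B. Local theory -/

/-- the embedding `σ` induces the place `v` -/
def OverPl {k : Type} [Field k] [NumberField k] (v : Pl k) {p : ℕ} [Fact p.Prime] (σ : k →+* ℂ_[p]) :
    Prop := ∀ x : k, v.valuation k x < 1 ↔ ‖σ x‖ < 1

/-- VEMB: every place is induced by an embedding. -/
def ST_VEMB : Prop :=
  ∀ (k : Type) [Field k] [NumberField k] (v : Pl k),
    ∃ (p : ℕ) (_ : Fact p.Prime) (σ : k →+* ℂ_[p]) (E₀ : IntermediateField ℚ_[p] ℂ_[p]),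
      OverPl v σ ∧ FiniteDimensional ℚ_[p] E₀ ∧ ∀ x, σ x ∈ E₀

/-- the class of `x` is `≡ 1 mod v` -/
def CO {k Ω : Type} [Field k] [NumberField k] [Field Ω] [Algebra k Ω] (D : Sec k Ω) (v : Pl k)
    (x : LL D) : Prop :=
  ∀ N : ℕ, 0 < N → ∃ (b : k) (g : LL D), x = algebraMap k (LL D) b * g ^ N ∧ Near v b

/-- VALU: valuations of classes. -/
def ST_VALU : Prop :=
  ∀ (k Ω : Type) [Field k] [NumberField k] [Field Ω] [Algebra k Ω] [IsAlgClosed Ω] (D : Sec k Ω)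
    (v : Pl k) (p : ℕ) [Fact p.Prime] (σ : k →+* ℂ_[p]) (P : Place D p σ), OverPl v σ →
    ∀ x : P.C, P.φ x ≠ 0 →
      (‖P.φ x‖ = 1 → ∀ (N : ℕ), 0 < N → ∀ (b : k) (g : LL D),
        (x : LL D) = algebraMap k (LL D) b * g ^ N → ∃ t : k, v.valuation k (b * t ^ N) = 1) ∧
      (‖P.φ x‖ ≠ 1 → ∃ L₀ : ℕ, ∀ ℓ : ℕ, ℓ.Prime → L₀ < ℓ → ∀ (b : k) (g : LL D),
        (x : LL D) = algebraMap k (LL D) b * g ^ ℓ → ∀ t : k, v.valuation k (b * t ^ ℓ) ≠ 1)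

/-- COP: a value `≡ 1` gives a class `≡ 1`. -/
def ST_COP : Prop :=
  ∀ (k Ω : Type) [Field k] [NumberField k] [Field Ω] [Algebra k Ω] [IsAlgClosed Ω] (D : Sec k Ω)
    (v : Pl k) (p : ℕ) [Fact p.Prime] (σ : k →+* ℂ_[p]) (P : Place D p σ), OverPl v σ →
    ∀ x : P.C, ‖P.φ x - 1‖ < 1 → CO D v (x : LL D)

/-- COI: a class `≡ 1` gives a value `≡ 1`, if the value is not `0` or `∞`. -/
def ST_COI : Prop :=
  ∀ (k Ω : Type) [Field k] [NumberField k] [Field Ω] [Algebra k Ω] [IsAlgClosed Ω] (D : Sec k Ω)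
    (v : Pl k) (p : ℕ) [Fact p.Prime] (σ : k →+* ℂ_[p]) (P : Place D p σ), OverPl v σ →
    ∀ x : P.C, P.φ x ≠ 0 → CO D v (x : LL D) → ‖P.φ x - 1‖ < 1

/-! ## C. The zero-one law -/

/-- the places `v` for which some place over `v` has a value of absolute value `< 1` at `f` -/
def SetZ {k Ω : Type} [Field k] [NumberField k] [Field Ω] [Algebra k Ω] (D : Sec k Ω) (f : LL D) :
    Set (Pl k) :=
  {v | ∃ (p : ℕ) (_ : Fact p.Prime) (σ : k →+* ℂ_[p]) (P : Place D p σ) (h : f ∈ P.C),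
    OverPl v σ ∧ ‖P.φ ⟨f, h⟩‖ < 1}

/-- ZERO: if `f(x_v) ≡ 0 mod v` for a set of `v` of positive upper density then `f(x_v) = 0` for all `v`. -/
def ST_ZERO : Prop :=
  ∀ (k Ω : Type) [Field k] [NumberField k] [Field Ω] [Algebra k Ω] [IsAlgClosed Ω] (D : Sec k Ω)
    (f : LL D), ¬ NumberField.Set.HasDirichletDensity (SetZ D f) 0 →
    ∀ (v : Pl k) (p : ℕ) [Fact p.Prime] (σ : k →+* ℂ_[p]) (P : Place D p σ), OverPl v σ →
      ∃ h : f ∈ P.C, P.φ ⟨f, h⟩ = 0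

/-- DIVC: if `f` vanishes at all places then the classes of `f - c` have rational norm. -/
def ST_DIVC : Prop :=
  ∀ (k Ω : Type) [Field k] [NumberField k] [Field Ω] [Algebra k Ω] [IsAlgClosed Ω] (D : Sec k Ω)
    (f : LL D),
    (∀ (v : Pl k) (p : ℕ) [Fact p.Prime] (σ : k →+* ℂ_[p]) (P : Place D p σ), OverPl v σ →
      ∃ h : f ∈ P.C, P.φ ⟨f, h⟩ = 0) →
    ∀ c : k, c ≠ 0 → NR D ℚ (f - algebraMap k (LL D) c)

/-- ZLD: the zero-one law for a `Sec`. -/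
def ST_ZLD : Prop :=
  ∀ (k K Ω : Type) [Field k] [NumberField k] [Field K] [Field Ω] [Algebra k K] [Algebra K Ω]
    [Algebra k Ω] [IsScalarTower k K Ω] [IsAlgClosed Ω] [Algebra.IsAlgebraic K Ω] (D : Sec k Ω),
    (∃ t : K, Transcendental k t ∧ Algebra.IsAlgebraic (IntermediateField.adjoin k {t}) K) →
    (∀ (g : GG k Ω) (x : K), D.s g (algebraMap K Ω x) = algebraMap K Ω x) →
    ((∃ O : ValuationSubring K, GeoV k K Ω D O) ↔
      ∃ h : LL D, (∀ c : k, h ≠ algebraMap k (LL D) c) ∧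
        ¬ NumberField.Set.HasDirichletDensity {v : Pl k | CO D v h} 0)

end Pool.Agent.Helper13.ZL
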