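import Pool.Agent.Helper14.BSC.TopKb
import Pool.Agent.Helper13.ZL.Stmts

/-!
# The zero-one law over arbitrary algebraic closures
-/

set_option autoImplicit false

open scoped Classical

namespace Pool.Agent.Helper13.ZL

open Pool.Agent.Helper14.BSC Pool.Agent.Helper14.BSC.Gen

/-- the Kummer class of `x` is `≡ 1 mod v` -/
def CongOne {k K kb Ω : Type} [Field k] [NumberField k] [Field K] [Field kb] [Field Ω] [Algebra k kb]
    [Algebra k Ω] [Algebra K Ω] (s : (kb ≃ₐ[k] kb) →* (Ω ≃ₐ[K] Ω)) (v : Pl k) (x : Ω) : Prop :=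
  ∀ n : ℕ, 0 < n → ∃ (b : k) (g : Ω), v.valuation k (b - 1) < 1 ∧ (∀ σ, s σ g = g) ∧
    x = algebraMap k Ω b * g ^ n

section

variable {k K kb Ω : Type} [Field k] [NumberField k] [Field K] [Field kb] [Field Ω] [Algebra k K]
  [Algebra k kb] [Algebra kb Ω] [Algebra k Ω] [Algebra K Ω] [IsScalarTower k K Ω]
  [IsScalarTower k kb Ω] [Algebra.IsAlgebraic K Ω] [IsAlgClosure k kb]

theorem ztop_co (s : (kb ≃ₐ[k] kb) →* (Ω ≃ₐ[K] Ω)) (hs : IsSection s) (v : Pl k)
    (x : LL (topD s hs)) : CO (topD s hs) v x ↔ CongOne s v (x : Ω) := by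
  constructor
  · intro h n hn
    obtain ⟨b, g, hx, hb⟩ := h n hn
    refine ⟨b, g, hb, (top_mem s hs g).1 g.2, ?_⟩
    rw [hx]
    rfl
  · intro h n hn
    obtain ⟨b, g, hb, hg, hx⟩ := h n hn
    refine ⟨b, ⟨g, (top_mem s hs g).2 hg⟩, ?_, hb⟩
    apply Subtype.ext
    rw [hx]
    rfl

/-- a geometric section has a nonconstant `h ∈ K` all whose roots are fixed -/
theorem ztop_geo (hHEN : ST_HEN) [IsAlgClosed Ω]
    (htr : ∃ t : K, Transcendental k t ∧ Algebra.IsAlgebraic (IntermediateField.adjoin k {t}) K)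
    (s : (kb ≃ₐ[k] kb) →* (Ω ≃ₐ[K] Ω)) (hs : IsSection s) (hG : IsGeometric s) :
    ∃ h : K, h ∉ (algebraMap k K).range ∧ ∀ v : Pl k, CongOne s v (algebraMap K Ω h) := by
  obtain ⟨t, ht, _⟩ := htr
  obtain ⟨O, hO, _⟩ := hG
  have hO' := (top_geo s hs O).1 hO
  obtain ⟨hne, hk, hres, W, hW, hinv⟩ := hO'
  have htr : t ∉ (algebraMap k K).range := by
    rintro ⟨c, hc⟩
    apply ht
    rw [← hc]
    exact isAlgebraic_algebraMap c
  have key : ∃ u : K, u ∉ (algebraMap k K).range ∧ u ∈ O := by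
    rcases O.mem_or_inv_mem t with h | h
    · exact ⟨t, htr, h⟩
    · refine ⟨t⁻¹, ?_, h⟩
      intro hi
      apply htr
      obtain ⟨c, hc⟩ := hi
      refine ⟨c⁻¹, ?_⟩
      rw [map_inv₀, hc, inv_inv]
  obtain ⟨u, hu, huO⟩ := key
  obtain ⟨c, hc⟩ := hres u huO
  refine ⟨1 + (u - algebraMap k K c), ?_, ?_⟩
  · rintro ⟨d, hd⟩
    apply hu
    refine ⟨d - 1 + c, ?_⟩
    rw [map_add, map_sub, hd, map_one]
    ring
  · intro v
    have hmem : algebraMap K Ω (1 + (u - algebraMap k K c)) ∈ LL (topD s hs) :=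
      (top_mem s hs _).2 (fun g => (s g).commutes _)
    have hkW : ∀ c : k, algebraMap k Ω c ∈ W := by
      intro c
      have h1 : algebraMap k K c ∈ W.comap (algebraMap K Ω) := by
        rw [hW]
        exact hk c
      rw [ValuationSubring.mem_comap] at h1
      rwa [← IsScalarTower.algebraMap_apply] at h1
    have hval : W.valuation (algebraMap K Ω (1 + (u - algebraMap k K c)) - 1) < 1 := by
      rw [map_add, map_one, add_sub_cancel_left]
      by_cases h0 : u - algebraMap k K c = 0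
      · rw [h0, map_zero, map_zero]
        exact zero_lt_one
      by_contra hge
      push Not at hge
      have h2 : (algebraMap K Ω (u - algebraMap k K c))⁻¹ ∈ W := by
        rw [← ValuationSubring.valuation_le_one_iff, map_inv₀]
        exact inv_le_one_of_one_le₀ hge
      have h3 : (u - algebraMap k K c)⁻¹ ∈ O := by
        rw [← hW, ValuationSubring.mem_comap, map_inv₀]
        exact h2
      have h4 : O.valuation ((u - algebraMap k K c)⁻¹) ≤ 1 :=
        (ValuationSubring.valuation_le_one_iff _ _).2 h3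
      rw [map_inv₀] at h4
      have h5 : O.valuation (u - algebraMap k K c) ≠ 0 := by
        rwa [ne_eq, map_eq_zero]
      have h6 : 1 ≤ O.valuation (u - algebraMap k K c) := by
        have h7 := (inv_le_one₀ (zero_lt_iff.2 h5)).1 h4
        exact h7
      exact absurd hc (not_lt.2 h6)
    have hroot := hHEN k Ω (topD s hs) W hkW hinv ⟨_, hmem⟩ hval
    have hco : CO (topD s hs) v ⟨_, hmem⟩ := by
      intro N hN
      obtain ⟨y, hy⟩ := hroot N hN
      refine ⟨1, y, ?_, ?_⟩
      · rw [map_one, one_mul]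
        exact hy
      · unfold Near
        rw [sub_self, map_zero]
        exact zero_lt_one
    exact (ztop_co s hs v _).1 hco

/-- the zero-one law -/
theorem ztop (hHEN : ST_HEN) (hUNI : ST_UNI) (hDLIB : ST_DLIB) (hZLD : ST_ZLD) [IsAlgClosed Ω]
    (htr : ∃ t : K, Transcendental k t ∧ Algebra.IsAlgebraic (IntermediateField.adjoin k {t}) K)
    (s : (kb ≃ₐ[k] kb) →* (Ω ≃ₐ[K] Ω)) (hs : IsSection s) :
    (IsGeometric s ↔ ∃ h : K, h ∉ (algebraMap k K).range ∧
      ¬ NumberField.Set.HasDirichletDensity {v : Pl k | CongOne s v (algebraMap K Ω h)} 0) ∧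
    (IsGeometric s ↔ ∃ h : Ω, (∀ g, s g h = h) ∧ h ∉ (algebraMap k Ω).range ∧
      ¬ NumberField.Set.HasDirichletDensity {v : Pl k | CongOne s v h} 0) := by
  have hk : (⊤ : IntermediateField ℚ k).FG := by
    rw [IntermediateField.fg_top_iff]
    infer_instance
  have hfix : ∀ (g : GG k Ω) (x : K), (topD s hs).s g (algebraMap K Ω x) = algebraMap K Ω x :=
    fun g x => (s _).commutes x
  have h1 : IsGeometric s → ∃ h : K, h ∉ (algebraMap k K).range ∧
      ¬ NumberField.Set.HasDirichletDensity {v : Pl k | CongOne s v (algebraMap K Ω h)} 0 := by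
    intro hG
    obtain ⟨h, hh, hv⟩ := ztop_geo hHEN htr s hs hG
    refine ⟨h, hh, ?_⟩
    have : {v : Pl k | CongOne s v (algebraMap K Ω h)} = Set.univ := by
      ext v
      simp [hv v]
    rw [this]
    exact (hDLIB k).2.2.2
  have h2 : (∃ h : K, h ∉ (algebraMap k K).range ∧
      ¬ NumberField.Set.HasDirichletDensity {v : Pl k | CongOne s v (algebraMap K Ω h)} 0) →
      ∃ h : Ω, (∀ g, s g h = h) ∧ h ∉ (algebraMap k Ω).range ∧
      ¬ NumberField.Set.HasDirichletDensity {v : Pl k | CongOne s v h} 0 := by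
    rintro ⟨h, hh, hd⟩
    exact ⟨algebraMap K Ω h, fun g => (s g).commutes h, top_range hh, hd⟩
  have h3 : (∃ h : Ω, (∀ g, s g h = h) ∧ h ∉ (algebraMap k Ω).range ∧
      ¬ NumberField.Set.HasDirichletDensity {v : Pl k | CongOne s v h} 0) → IsGeometric s := by
    rintro ⟨h, hf, hhk, hd⟩
    have hmem : h ∈ LL (topD s hs) := (top_mem s hs h).2 hf
    obtain ⟨O, hO⟩ := (hZLD k K Ω (topD s hs) htr hfix).2 ⟨⟨h, hmem⟩, by
      intro c hc
      apply hhk
      refine ⟨c, ?_⟩
      have := congrArg (fun z : LL (topD s hs) => (z : Ω)) hc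
      simpa using this.symm, by
      have : {v : Pl k | CO (topD s hs) v ⟨h, hmem⟩} = {v : Pl k | CongOne s v h} := by
        ext v
        exact ztop_co s hs v _
      rw [this]
      exact hd⟩
    refine ⟨O, (top_geo s hs O).2 hO, ?_⟩
    intro O' hO'
    exact hUNI k K Ω (topD s hs) hk hfix O' O ((top_geo s hs O').1 hO') hO
  exact ⟨⟨h1, fun h => h3 (h2 h)⟩, ⟨fun h => h2 (h1 h), h3⟩⟩

end

end Pool.Agent.Helper13.ZL
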